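import Pool.Agent.W2helper20.BC.Main2

/-!
# MP_07cd05_gt: an energy criterion for boundary rigidity

`M` is the closed unit ball of `ℝ^n`, `n ≥ 2` (every simple manifold is diffeomorphic to it). The definitions
`IsMetric`, `IsSimple` (strictly convex boundary sphere; every exponential map is a diffeomorphism of its maximal
domain of definition onto `M`), `rdist` (Riemannian distance), `IsDiffeo` are those of `Pool.Agent.Q176.SM`;
`FixesBoundary`, `IsIsometry`, `vol`, `energy` are those of `Pool.Agent.W2helper20.EN` (module `EnDefs`).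

**Theorem.** Let `g` be a simple metric and `g'` any metric on `M` with `d_g ≤ d_{g'}` for all pairs of boundary points.
For every smooth map `ψ : M → M` which fixes the boundary points and every `p ≥ 1`, the normalised energy
`∫_M (|dψ|² / n)^(p/2) dvol_g` of `ψ : (M, g) → (M, g')` is at least the volume of `(M, g)`, and it is equal to the
volume if and only if `ψ` is a diffeomorphism of `M` with `ψ^* g' = g`.

So two simple metrics `g`, `g'` with the same boundary distance function are related by a boundary fixing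
diffeomorphism if and only if some smooth boundary fixing map has Dirichlet energy at most `(n / 2) vol_g(M)` (`p = 2`).

Corollary, with `ψ = id` for both pairs `(g, g')`, `(g', g)`: if at every point `r - 1 + (r' - 1) * δ ≤ 0`,
where `r` (`r'`) is the quadratic mean of the `g'`-length (`g`-length) over the `g`-unit (`g'`-unit) vectors and `δ` is
the ratio of the volume densities, then `g' = g` (`pointwise`); this contains the rigidity within a conformal class
(`conformal_noLarger`).

Proof: the reversal of geodesics preserves the Liouville measure (symmetry of the density of the exponential maps), so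
the Liouville measure is an average over the maximal geodesics `γ`; the `g'`-length of `ψ ∘ γ` is at least the
`g`-length of `γ`. So the mean of `|dψ(v)|_{g'}` over the unit sphere bundle of `g` is at least one. In the case of
equality `ψ^* g' = Θ g`, and the first variation of the length along almost every maximal geodesic gives `dΘ = 0` where
`Θ > 0`, so `Θ = 1`.
-/

set_option autoImplicit false

namespace Pool.Agent.Results.MP_07cd05_gt.EnergyCriterion

open Pool.Agent.Q176.SM Pool.Agent.W2helper20.EN
open scoped InnerProductSpace ContDiff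

/-- **Energy of boundary fixing maps**, and the criterion for boundary rigidity. -/
theorem result (n : ℕ) (hn : 2 ≤ n) (g g' : E n → E n → E n → ℝ) (hg : IsSimple g) (hg' : IsMetric g')
    (hd : ∀ x ∈ bdM n, ∀ y ∈ bdM n, rdist g x y ≤ rdist g' x y) (p : ℝ) (hp : 1 ≤ p) :
    (∀ ψ : E n → E n, FixesBoundary ψ →
      vol g ≤ energy p g g' ψ ∧ (energy p g g' ψ = vol g ↔ IsIsometry g g' ψ)) ∧
    ((∃ ψ : E n → E n, FixesBoundary ψ ∧ IsIsometry g g' ψ) ↔
      ∃ ψ : E n → E n, FixesBoundary ψ ∧ energy p g g' ψ ≤ vol g) := by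
  have key : ∀ ψ : E n → E n, FixesBoundary ψ →
      vol g ≤ energy p g g' ψ ∧ (energy p g g' ψ = vol g ↔ IsIsometry g g' ψ) := by
    intro ψ hψ
    obtain ⟨h1, h2⟩ := energy_theorem hn hg hg' hd hp hψ
    exact ⟨h1, ⟨fun h3 => h2.1 h3.le, fun h3 => le_antisymm (h2.2 h3) h1⟩⟩
  refine ⟨key, ?_, ?_⟩
  · rintro ⟨ψ, h1, h2⟩
    exact ⟨ψ, h1, ((key ψ h1).2.2 h2).le⟩
  · rintro ⟨ψ, h1, h2⟩
    exact ⟨ψ, h1, (key ψ h1).2.1 (le_antisymm h2 (key ψ h1).1)⟩

/-- The pointwise condition for two metrics. -/
def NoLarger {n : ℕ} (g g' : E n → E n → E n → ℝ) (x : E n) : Prop :=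
  √(meanTrace g g' x) - 1 + (√(meanTrace g' g x) - 1) * √((gramMatrix g' x).det / (gramMatrix g x).det) ≤ 0

/-- Rigidity under the pointwise condition. -/
theorem pointwise (n : ℕ) (hn : 2 ≤ n) (g g' : E n → E n → E n → ℝ) (hg : IsSimple g) (hg' : IsSimple g')
    (hd : ∀ x ∈ bdM n, ∀ y ∈ bdM n, rdist g x y = rdist g' x y) (hc : ∀ x ∈ M n, NoLarger g g' x) :
    ∀ x ∈ M n, g' x = g x := by
  refine two_sided hn hg hg' hd (fun x hx => ?_)
  unfold Pool.Agent.W2helper20.BC.Cond
  rw [gram_clm' hg.toIsMetric, gram_clm' hg'.toIsMetric]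
  exact hc x hx

theorem det_pos {n : ℕ} {g : E n → E n → E n → ℝ} (hg : IsMetric g) (x : E n) :
    0 < (gramMatrix g x).det := by
  have h := (Pool.Agent.Q176.BR.clm_metric hg).det_pos x
  rwa [gram_clm' hg] at h

/-- The pointwise condition holds at `x` if `g'` is conformal to `g` at `x`. -/
theorem conformal_noLarger {n : ℕ} (hn : 1 ≤ n) {g g' : E n → E n → E n → ℝ} (hg : IsMetric g) {x : E n}
    {c : ℝ} (hc : 0 < c) (h : ∀ v w, g' x v w = c * g x v w) : NoLarger g g' x := by
  have hG := det_pos hg x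
  have hu : IsUnit (gramMatrix g x).det := isUnit_iff_ne_zero.2 hG.ne'
  have hn0 : (n : ℝ) ≠ 0 := by
    have : 0 < n := hn
    positivity
  have e1 : gramMatrix g' x = c • gramMatrix g x := by
    ext i j
    simp only [gramMatrix, Matrix.of_apply, Matrix.smul_apply, smul_eq_mul]
    exact h _ _
  have e2 : (gramMatrix g x)⁻¹ * gramMatrix g' x = c • (1 : Matrix (Fin n) (Fin n) ℝ) := by
    rw [e1, Matrix.mul_smul, Matrix.nonsing_inv_mul _ hu]
  have e3 : (gramMatrix g' x)⁻¹ * gramMatrix g x = c⁻¹ • (1 : Matrix (Fin n) (Fin n) ℝ) := by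
    have h4 : (gramMatrix g' x)⁻¹ = c⁻¹ • (gramMatrix g x)⁻¹ := by
      refine Matrix.inv_eq_right_inv ?_
      rw [e1, Matrix.smul_mul, Matrix.mul_smul, Matrix.mul_nonsing_inv _ hu, smul_smul,
        mul_inv_cancel₀ hc.ne', one_smul]
    rw [h4, Matrix.smul_mul, Matrix.nonsing_inv_mul _ hu]
  have e4 : (gramMatrix g' x).det / (gramMatrix g x).det = c ^ n := by
    rw [e1, Matrix.det_smul, Fintype.card_fin]
    field_simp
  unfold NoLarger meanTrace
  rw [e2, e3, e4]
  simp only [Matrix.trace_smul, Matrix.trace_one, Fintype.card_fin, smul_eq_mul]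
  rw [mul_div_cancel_right₀ _ hn0, mul_div_cancel_right₀ _ hn0, Real.sqrt_inv]
  have hs : 0 < √c := Real.sqrt_pos.2 hc
  have e5 : √(c ^ n) = √c ^ n := by
    rw [Real.sqrt_eq_iff_mul_self_eq (by positivity) (by positivity), ← mul_pow,
      Real.mul_self_sqrt hc.le]
  rw [e5]
  obtain ⟨m, rfl⟩ : ∃ m, n = m + 1 := ⟨n - 1, by omega⟩
  have e6 : √c - 1 + ((√c)⁻¹ - 1) * √c ^ (m + 1) = (√c - 1) * (1 - √c ^ m) := by
    field_simp
    ring
  rw [e6]
  rcases le_total 1 (√c) with h1 | h1
  · have : 1 ≤ √c ^ m := one_le_pow₀ h1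
    nlinarith
  · have : √c ^ m ≤ 1 := pow_le_one₀ hs.le h1
    nlinarith

end Pool.Agent.Results.MP_07cd05_gt.EnergyCriterion
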