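import Pool.Agent.W2helper20.KS.FinE

/-!
# MP_07cd05_gt: stability of the energy criterion for boundary rigidity

`M` is the closed unit ball of `ℝ^n`, `n ≥ 2` (every simple manifold is diffeomorphic to it). The definitions
`IsMetric`, `IsSimple` (strictly convex boundary sphere; every exponential map is a diffeomorphism of its maximal
domain of definition onto `M`), `rdist` (Riemannian distance of `M`) are those of `Pool.Agent.Q176.SM`;
`FixesBoundary`, `pullback`, `vol`, `energy` are those of `Pool.Agent.W2helper20.EN` (module `EnDefs`).

**Theorem.** Let `g` be a simple metric on `M`. There is a constant `C` with the following property. Let `g'` be any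
metric on `M` whose boundary distances are at least `1 - η` times those of `g`, `0 ≤ η ≤ 1`, and let `ψ : M → M` be
a smooth map which fixes the boundary points and whose normalised Dirichlet energy `∫_M |dψ|² / n dvol_g` as a map from
`(M, g)` to `(M, g')` is at most `(1 + ε) vol_g(M)`, `ε ≥ 0`. Then
`∫_M |ψ^* g' - g| dx ≤ C √(δ (1 + δ))`, `δ = ε + η`.

The constant depends on `g` only, there is no bound on `g'` or `ψ`.

Proof. The averages over the maximal geodesics `γ` of `g` (whose `ψ^* g'`-lengths are at least `1 - η` times their
`g`-lengths) give `∫∫ |v|_g |v|_h ≥ (1 - η) ∫∫ |v|_g²`, `h = ψ^* g'`, the integrals over the `v` with `|v|_g ≤ 1` and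
over `M`. With the bound for the energy, the integral of `(|v|_h - |v|_g)²` is `O(ε + η)`. The Cauchy-Schwarz inequality
gives the integral of `|h(v, v) - g(v, v)|`, which for each point is a norm of `h - g`.
-/

set_option autoImplicit false

namespace Pool.Agent.Results.MP_07cd05_gt.EnergyStability

open Set Metric MeasureTheory
open scoped ContDiff InnerProductSpace
open Pool.Agent.Q176.SM Pool.Agent.W2helper20.EN

variable {n : ℕ}

/-- The deviation of `h` from `g` at the point `x`: the sum of the absolute values of the differences of the components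
in the standard coordinates of `ℝ^n`. -/
noncomputable def deviation (g h : E n → E n → E n → ℝ) (x : E n) : ℝ :=
  ∑ i, ∑ j, |h x (EuclideanSpace.single i 1) (EuclideanSpace.single j 1) -
    g x (EuclideanSpace.single i 1) (EuclideanSpace.single j 1)|

/-- **Stability of the energy criterion for boundary rigidity.** -/
theorem result (n : ℕ) (hn : 2 ≤ n) (g : E n → E n → E n → ℝ) (hg : IsSimple g) :
    ∃ C : ℝ, ∀ (g' : E n → E n → E n → ℝ) (ψ : E n → E n) (ε η : ℝ), IsMetric g' → FixesBoundary ψ →
      0 ≤ ε → 0 ≤ η → η ≤ 1 →
      (∀ x ∈ bdM n, ∀ y ∈ bdM n, (1 - η) * rdist g x y ≤ rdist g' x y) →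
      energy 2 g g' ψ ≤ (1 + ε) * vol g →
      ∫ x in M n, deviation g (pullback ψ g') x ≤ C * √((ε + η) * (1 + (ε + η))) :=
  Pool.Agent.W2helper20.KS.energyF hn hg

end Pool.Agent.Results.MP_07cd05_gt.EnergyStability
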