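import Pool.Agent.W2helper25.KB.Psi

/-!
# MP_07cd05_gt: boundary rigidity within the class of (almost) Kähler metrics

`M` is the closed unit ball of `ℝ^n`, `n ≥ 3` (every simple manifold is diffeomorphic to it). A metric `g` is a smooth
field of positive definite symmetric bilinear forms `g x v w` on `ℝ^n`; geodesics, simple metrics (`IsSimple`) and the
distance function `rdist` of `M` are those of `Pool.Agent.Q176.SM` (file `Pool/Agent/Q176/BR/Light.lean`).

* `IsAlmostKaehler g J`: on `M` the field `J` of endomorphisms satisfies `J² = -1`, `g` is Hermitian with respect to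
  `J`, and the 2-form `ω = g(J·, ·)` is closed (in coordinates: `∂_u ω(v, w) + ∂_v ω(w, u) + ∂_w ω(u, v) = 0` for all
  constant vectors `u, v, w`). If `J` is integrable, `g` is a Kähler metric.
* `IsFixingHolomorphic J J' ψ`: `ψ : M → M` is smooth, is the identity on the boundary sphere, and is (pseudo)holomorphic
  from `(M, J)` to `(M, J')`: `dψ ∘ J = J' ∘ dψ`.

**Theorem.** Let `(g, J)` and `(g', J')` be almost Kähler structures on `M` with the same boundary distance function, `g`
simple. Then every boundary fixing holomorphic map `ψ : (M, J) → (M, J')` is a diffeomorphism of `M` with `ψ^* g' = g`.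
In particular (`ψ = id`, `same_structure`): two metrics which are Kähler for the same complex structure and have the
same boundary distance function are equal.

No curvature condition, no foliation condition, `g'` need not be simple, and `g`, `g'` need not be close to each other.

Proof. Put `h = ψ^* g'` (it may be degenerate a priori). Averaging over the geodesics of `g` (Santaló) gives
`∫_M tr_g(h) dvol_g ≥ n vol_g(M)` with equality only for `h = g` (`Pool.Agent.W2helper20.BC`). The boundary distance
function of a metric determines it on the tangent vectors of `∂M` (`KB/Len.lean`), hence `h = g` on these vectors, and,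
as `h` and `g` are Hermitian for the same `J`, the 2-forms `ψ^* ω'` and `ω` have the same restriction to `∂M`. As
`ω^{m-1}` is exact (`n = 2m ≥ 4`) and `ψ^* ω' - ω` is closed and vanishes on `∂M`,
`∫_M (tr_g(h) - n) dvol_g = 2 ∫_M (ψ^* ω' - ω) ∧ ω^{m-1} / (m-1)! = 0` (`KB/Pair.lean`, `KB/Kae.lean`, `KB/Kae2.lean`).
-/

set_option autoImplicit false

namespace Pool.Agent.Results.MP_07cd05_gt.KaehlerMetrics

open Set
open Pool.Agent.Q176.SM
open scoped InnerProductSpace ContDiff

/-- A field of endomorphisms of the tangent spaces. -/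
abbrev EndField (n : ℕ) := E n → E n →L[ℝ] E n

variable {n : ℕ}

/-- The fundamental form `ω(v, w) = g(J v, w)`. -/
def fundForm (g : E n → E n → E n → ℝ) (J : EndField n) : E n → E n → E n → ℝ :=
  fun x v w => g x (J x v) w

/-- `(g, J)` is an almost Kähler structure on the closed unit ball `M`: `J² = -1`, `g` is Hermitian, and the
fundamental form is closed (`dg ω x u v w` is the derivative of `ω(v, w)` at `x` in the direction `u`). -/
structure IsAlmostKaehler (g : E n → E n → E n → ℝ) (J : EndField n) : Prop where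
  smooth : ContDiff ℝ ∞ J
  sq : ∀ x ∈ M n, ∀ v, J x (J x v) = -v
  herm : ∀ x ∈ M n, ∀ v w, g x (J x v) (J x w) = g x v w
  closed : ∀ x ∈ M n, ∀ u v w, dg (fundForm g J) x u v w + dg (fundForm g J) x v w u +
    dg (fundForm g J) x w u v = 0

/-- `ψ` is a smooth map of `M` to itself which fixes the boundary points and is (pseudo)holomorphic from `(M, J)` to
`(M, J')`. -/
structure IsFixingHolomorphic (J J' : EndField n) (ψ : E n → E n) : Prop where
  smooth : ContDiff ℝ ∞ ψ
  maps : ∀ x ∈ M n, ψ x ∈ M n
  fix : ∀ x ∈ bdM n, ψ x = x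
  hol : ∀ x ∈ M n, ∀ v, fderiv ℝ ψ x (J x v) = J' (ψ x) (fderiv ℝ ψ x v)

/-- The pull-back `ψ^* g`. -/
noncomputable def pullback (g : E n → E n → E n → ℝ) (ψ : E n → E n) : E n → E n → E n → ℝ :=
  fun x v w => g (ψ x) (fderiv ℝ ψ x v) (fderiv ℝ ψ x w)

theorem ak_clm {g : E n → E n → E n → ℝ} {J : EndField n} (hg : IsMetric g)
    (h : IsAlmostKaehler g J) : Pool.Agent.W2helper25.KB.AK (Pool.Agent.Q176.BR.clm g) J := by
  refine ⟨h.sq, fun x hx v w => ?_, fun x hx u v w => ?_⟩
  · rw [Pool.Agent.Q176.BR.clm_apply hg, Pool.Agent.Q176.BR.clm_apply hg]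
    exact h.herm x hx v w
  · simp only [Pool.Agent.Q176.BR.clm_apply hg]
    exact h.closed x hx u v w

/-- **Boundary rigidity of simple almost Kähler metrics, up to boundary fixing holomorphic maps.** -/
theorem result (n : ℕ) (hn : 3 ≤ n) (g g' : E n → E n → E n → ℝ) (J J' : EndField n)
    (hg : IsSimple g) (hg' : IsMetric g') (hk : IsAlmostKaehler g J) (hk' : IsAlmostKaehler g' J')
    (hd : ∀ x ∈ bdM n, ∀ y ∈ bdM n, rdist g x y = rdist g' x y)
    (ψ : E n → E n) (hψ : IsFixingHolomorphic J J' ψ) :
    IsDiffeo ψ (M n) (M n) ∧ ∀ x ∈ M n, pullback g' ψ x = g x := by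
  have h := Pool.Agent.W2helper25.KB.main_psi hn (Pool.Agent.Q176.BR.clm_simple hg)
    (Pool.Agent.Q176.BR.clm_metric hg') hk.smooth hk'.smooth (ak_clm hg.toIsMetric hk)
    (ak_clm hg' hk') (ψ := ψ) ⟨hψ.smooth, fun x hx => hψ.maps x hx, hψ.fix⟩ hψ.hol
    (fun p hp q hq => by
      rw [Pool.Agent.Q176.BR.clm_rdist hg.toIsMetric, Pool.Agent.Q176.BR.clm_rdist hg']
      exact hd p hp q hq)
  refine ⟨h.2, fun x hx => ?_⟩
  funext v w
  have h1 := h.1 x hx v w
  rwa [Pool.Agent.Q176.BR.clm_apply hg.toIsMetric, Pool.Agent.Q176.BR.clm_apply hg'] at h1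

/-- The special case `ψ = id`: the same (almost) complex structure. -/
theorem same_structure (n : ℕ) (hn : 3 ≤ n) (g g' : E n → E n → E n → ℝ) (J : EndField n)
    (hg : IsSimple g) (hg' : IsMetric g') (hk : IsAlmostKaehler g J) (hk' : IsAlmostKaehler g' J)
    (hd : ∀ x ∈ bdM n, ∀ y ∈ bdM n, rdist g x y = rdist g' x y) : ∀ x ∈ M n, g' x = g x := by
  intro x hx
  have h := (result n hn g g' J J hg hg' hk hk' hd id
    ⟨contDiff_id, fun _ h => h, fun _ _ => rfl, fun _ _ _ => by simp⟩).2 x hx
  rw [← h]
  funext v w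
  simp [pullback]

/-- The flat Kähler metrics: the Euclidean metric (simple by `euclidean_is_simple` of the starting file) is almost
Kähler with respect to every orthogonal complex structure. -/
theorem euclidean_almostKaehler (n : ℕ) (J0 : E n →L[ℝ] E n) (h1 : ∀ v, J0 (J0 v) = -v)
    (h2 : ∀ v w, ⟪J0 v, J0 w⟫_ℝ = ⟪v, w⟫_ℝ) :
    IsAlmostKaehler (fun _ v w : E n => ⟪v, w⟫_ℝ) (fun _ => J0) :=
  ⟨contDiff_const, fun _ _ v => h1 v, fun _ _ v w => h2 v w, fun x _ u v w => by
    simp [dg, fundForm]⟩

end Pool.Agent.Results.MP_07cd05_gt.KaehlerMetrics
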