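import Pool.Agent.W2helper20.KS.FinB

/-!
# MP_07cd05_gt: stability of boundary rigidity for simple Kähler and balanced metrics, against all metrics

`M` is the closed unit ball of `ℝ^n`, `n ≥ 3` (every simple manifold is diffeomorphic to it). A metric `g` is a smooth
field of positive definite symmetric bilinear forms `g x v w` on `ℝ^n`; geodesics, simple metrics (`IsSimple`) and the
distance function `rdist` of `M` are those of `Pool.Agent.Q176.SM` (file `Pool/Agent/Q176/BR/Light.lean`).

* `IsBalanced g J`: on `M` the field `J` of endomorphisms satisfies `J² = -1`, `g` is Hermitian with respect to `J`, and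
  the fundamental form `ω = g(J·, ·)` is coclosed: `∂_i (√(det g) ω^{ij}) = 0` (sum over `i`), that is,
  `d(ω^{m-1}) = 0` for `n = 2m`. All Kähler and almost Kähler metrics (`IsAlmostKaehler`: `dω = 0`) are balanced
  (`balanced_of_kaehler`), and for `n ≥ 6` there are many more.
* `torsionDefect g h J x`: the Hermitian part `(h + h(J·, J·)) / 2` of `h` has a fundamental form `φ`, and the defect is
  the sum of the absolute values of the components of the exterior derivative `d(φ - ω)` at `x` (if `g` is almost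
  Kähler, this is `dφ`).

**Theorem** (`result`). Let `(g, J)` be a simple balanced almost Hermitian metric on `M`. There is a constant `C`,
depending on `g` and `J` only, such that for *every* metric `g'` on `M` and every smooth map `ψ : M → M` which fixes the
boundary points, with `h = ψ^* g'`: if
* `(1 - η) d_g ≤ d_{g'}` for the pairs of boundary points, `0 ≤ η ≤ 1`,
* `d_{g'} ≤ (1 + η) d_g` for the pairs of boundary points, or only `g' ≤ (1 + η)² g` on the vectors tangent to the
  boundary (which is weaker),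
* `|h(Jv, Jv) - h(v, v)| ≤ κ g(v, v)` for the vectors `v` tangent to the boundary,
* the integral of the torsion defect of `h` over `M` is at most `δ`,

then `∫_M |ψ^* g' - g| dx ≤ C √(s (1 + s))` for `s = η + κ + δ`.

There is no a priori bound for `g'` and its derivatives, or for `ψ`; `g'` need not be simple or Hermitian, and there is
no curvature or foliation condition.

* `rigidity_part`: if `κ = δ = 0` (for almost Kähler `g`: the Hermitian part of `h` is almost Kähler, `h` is Hermitian
  at the boundary, and its anti-Hermitian part is arbitrary), `d_g ≤ d_{g'}` on the boundary and `g' ≤ g` on the vectors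
  tangent to the boundary (in particular if the boundary distances are equal), then `h = g`.
* `kaehler`: for almost Kähler `(g, J)`, `(g', J')` and holomorphic `ψ : (M, J) → (M, J')` one has `κ = δ = 0`, so that
  `∫_M |ψ^* g' - g| dx ≤ C √η`; in particular (`same_structure`) for all almost Kähler `g'` with the same `J`.

Proof. By the stability of the energy criterion (hand-in `EnergyStability`) it suffices to bound
`∫_M (tr_g(h) - n) dvol_g`. This integral depends on the Hermitian part of `h` only; it is, up to a constant, the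
integral of `(φ - ω) ∧ ω^{m-1}`. As `ω^{m-1}` is exact, it is a boundary integral of the restriction of `φ - ω` to the
tangent vectors of the sphere times a fixed form, plus an integral of `d(φ - ω)` times a fixed form. The distances of
near boundary points give `(1 - η)² g ≤ h ≤ (1 + η)² g` on the tangent vectors, and by the compatibility with `J` the
restriction of `φ - ω` is `O(η + κ)`.
-/

set_option autoImplicit false

namespace Pool.Agent.Results.MP_07cd05_gt.KaehlerStability

open Set Metric MeasureTheory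
open scoped ContDiff InnerProductSpace
open Pool.Agent.Q176.SM

/-- A field of endomorphisms of the tangent spaces. -/
abbrev EndField (n : ℕ) := E n → E n →L[ℝ] E n

variable {n : ℕ}

/-- The fundamental form `ω(v, w) = g(J v, w)`. -/
def fundForm (g : E n → E n → E n → ℝ) (J : EndField n) : E n → E n → E n → ℝ :=
  fun x v w => g x (J x v) w

/-- The Gram matrix of `g` in the standard basis of `ℝ^n`. -/
noncomputable def gramMatrix (g : E n → E n → E n → ℝ) (x : E n) : Matrix (Fin n) (Fin n) ℝ :=
  Matrix.of fun i j => g x (EuclideanSpace.single i 1) (EuclideanSpace.single j 1)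

/-- The matrix of `J` in the standard basis of `ℝ^n`. -/
noncomputable def endMatrix (J : EndField n) (x : E n) : Matrix (Fin n) (Fin n) ℝ :=
  Matrix.of fun i k => (J x (EuclideanSpace.single k 1)) i

/-- The components `√(det g) ω^{ij}`, where `ω^{ij} = g^{ia} g^{jb} ω_{ab} = g^{ia} J^j_a` are the components of the
fundamental form with both indices raised. -/
noncomputable def raised (g : E n → E n → E n → ℝ) (J : EndField n) (i j : Fin n) (x : E n) : ℝ :=
  √(gramMatrix g x).det * ((gramMatrix g x)⁻¹ * (endMatrix J x).transpose) i j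

/-- `(g, J)` is a balanced almost Hermitian structure on the closed unit ball `M`: `J² = -1`, `g` is Hermitian, and the
fundamental form is coclosed. -/
structure IsBalanced (g : E n → E n → E n → ℝ) (J : EndField n) : Prop where
  smooth : ContDiff ℝ ∞ J
  sq : ∀ x ∈ M n, ∀ v, J x (J x v) = -v
  herm : ∀ x ∈ M n, ∀ v w, g x (J x v) (J x w) = g x v w
  coclosed : ∀ x ∈ ball (0 : E n) 1, ∀ j,
    ∑ i, fderiv ℝ (raised g J i j) x (EuclideanSpace.single i 1) = 0

/-- `(g, J)` is an almost Kähler structure on the closed unit ball `M`: `J² = -1`, `g` is Hermitian, and the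
fundamental form is closed (`dg ω x u v w` is the derivative of `ω(v, w)` at `x` in the direction `u`). -/
structure IsAlmostKaehler (g : E n → E n → E n → ℝ) (J : EndField n) : Prop where
  smooth : ContDiff ℝ ∞ J
  sq : ∀ x ∈ M n, ∀ v, J x (J x v) = -v
  herm : ∀ x ∈ M n, ∀ v w, g x (J x v) (J x w) = g x v w
  closed : ∀ x ∈ M n, ∀ u v w, dg (fundForm g J) x u v w + dg (fundForm g J) x v w u +
    dg (fundForm g J) x w u v = 0

/-- `ψ` is a smooth map of `M` to itself which fixes the boundary points. -/
structure FixesBoundary (ψ : E n → E n) : Prop where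
  smooth : ContDiff ℝ ∞ ψ
  maps : ∀ x ∈ M n, ψ x ∈ M n
  fix : ∀ x ∈ bdM n, ψ x = x

/-- The pull-back `ψ^* g`. -/
noncomputable def pullback (g : E n → E n → E n → ℝ) (ψ : E n → E n) : E n → E n → E n → ℝ :=
  fun x v w => g (ψ x) (fderiv ℝ ψ x v) (fderiv ℝ ψ x w)

/-- The Hermitian part `(h + h(J·, J·)) / 2` of `h`. -/
noncomputable def hermPart (h : E n → E n → E n → ℝ) (J : EndField n) : E n → E n → E n → ℝ :=
  fun x v w => (h x v w + h x (J x v) (J x w)) / 2

/-- The size of the exterior derivative of `φ` at `x`: the sum of the absolute values of its components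
`∂_i φ_jk + ∂_j φ_ki + ∂_k φ_ij` in the standard coordinates of `ℝ^n`. -/
noncomputable def extSize (φ : E n → E n → E n → ℝ) (x : E n) : ℝ :=
  ∑ i, ∑ j, ∑ k, |dg φ x (EuclideanSpace.single i 1) (EuclideanSpace.single j 1)
      (EuclideanSpace.single k 1) + dg φ x (EuclideanSpace.single j 1)
      (EuclideanSpace.single k 1) (EuclideanSpace.single i 1) + dg φ x
      (EuclideanSpace.single k 1) (EuclideanSpace.single i 1) (EuclideanSpace.single j 1)|

/-- The torsion defect of `h` at `x`: the size of the exterior derivative of the difference of the fundamental forms of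
the Hermitian part of `h` and of `g`. -/
noncomputable def torsionDefect (g h : E n → E n → E n → ℝ) (J : EndField n) (x : E n) : ℝ :=
  extSize (fun y v w => fundForm (hermPart h J) J y v w - fundForm g J y v w) x

/-- The deviation of `h` from `g` at the point `x`: the sum of the absolute values of the differences of the components
in the standard coordinates of `ℝ^n`. -/
noncomputable def deviation (g h : E n → E n → E n → ℝ) (x : E n) : ℝ :=
  ∑ i, ∑ j, |h x (EuclideanSpace.single i 1) (EuclideanSpace.single j 1) -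
    g x (EuclideanSpace.single i 1) (EuclideanSpace.single j 1)|

theorem ak_clm {g : E n → E n → E n → ℝ} {J : EndField n} (hg : IsMetric g)
    (h : IsAlmostKaehler g J) : Pool.Agent.W2helper25.KB.AK (Pool.Agent.Q176.BR.clm g) J := by
  refine ⟨h.sq, fun x hx v w => ?_, fun x hx u v w => ?_⟩
  · rw [Pool.Agent.Q176.BR.clm_apply hg, Pool.Agent.Q176.BR.clm_apply hg]
    exact h.herm x hx v w
  · simp only [Pool.Agent.Q176.BR.clm_apply hg]
    exact h.closed x hx u v w

/-- Almost Kähler metrics are balanced. -/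
theorem balanced_of_kaehler {g : E n → E n → E n → ℝ} {J : EndField n} (hg : IsMetric g)
    (h : IsAlmostKaehler g J) : IsBalanced g J :=
  ⟨h.smooth, h.sq, h.herm, Pool.Agent.W2helper20.KS.of_bal hg h.smooth (ak_clm hg h)⟩

theorem ah_clm {g : E n → E n → E n → ℝ} {J : EndField n} (hg : IsMetric g)
    (h : IsBalanced g J) : Pool.Agent.W2helper20.KS.AH (Pool.Agent.Q176.BR.clm g) J := by
  refine ⟨h.sq, fun x hx v w => ?_⟩
  rw [Pool.Agent.Q176.BR.clm_apply hg, Pool.Agent.Q176.BR.clm_apply hg]
  exact h.herm x hx v w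

/-- **Stability of boundary rigidity for simple balanced almost Hermitian metrics, against all metrics.** -/
theorem result (n : ℕ) (hn : 3 ≤ n) (g : E n → E n → E n → ℝ) (J : EndField n) (hg : IsSimple g)
    (hk : IsBalanced g J) :
    ∃ C : ℝ, ∀ (g' : E n → E n → E n → ℝ) (ψ : E n → E n) (η κ δ : ℝ), IsMetric g' →
      FixesBoundary ψ → 0 ≤ η → η ≤ 1 → 0 ≤ κ →
      (∀ x ∈ bdM n, ∀ y ∈ bdM n, (1 - η) * rdist g x y ≤ rdist g' x y) →
      ((∀ x ∈ bdM n, ∀ y ∈ bdM n, rdist g' x y ≤ (1 + η) * rdist g x y) ∨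
        (∀ x ∈ bdM n, ∀ v, ⟪x, v⟫_ℝ = 0 → g' x v v ≤ (1 + η) ^ 2 * g x v v)) →
      (∀ x ∈ bdM n, ∀ v, ⟪x, v⟫_ℝ = 0 →
        |pullback g' ψ x (J x v) (J x v) - pullback g' ψ x v v| ≤ κ * g x v v) →
      ∫ x in M n, torsionDefect g (pullback g' ψ) J x ≤ δ →
      ∫ x in M n, deviation g (pullback g' ψ) x ≤ C * √((η + κ + δ) * (1 + (η + κ + δ))) := by
  have hm := hg.toIsMetric
  obtain ⟨K, -, H⟩ := Pool.Agent.W2helper20.KS.defectB hn hg hk.smooth (ah_clm hm hk) hk.coclosed
  refine ⟨K, fun g' ψ η κ δ hg' hψ h0 h1 k0 hd1 hd2 hh hδ => ?_⟩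
  exact H g' ψ η κ δ hg' ⟨hψ.smooth, fun x hx => hψ.maps x hx, hψ.fix⟩ h0 h1 hd1
    (hd2.elim (fun h => Pool.Agent.W2helper20.KS.up_SM hm hg' h0 h) id) k0 hh hδ

/-- Rigidity, if `ψ^* g'` is Hermitian at the boundary and the fundamental form of its Hermitian part has the same
exterior derivative as that of `g`: if `d_g ≤ d_{g'}` for the pairs of boundary points and `g' ≤ g` on the vectors
tangent to the boundary (in particular if the boundary distances are equal), then `ψ^* g' = g` on `M`. -/
theorem rigidity_part (n : ℕ) (hn : 3 ≤ n) (g g' : E n → E n → E n → ℝ) (J : EndField n)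
    (hg : IsSimple g) (hg' : IsMetric g') (hk : IsBalanced g J)
    (hd : ∀ x ∈ bdM n, ∀ y ∈ bdM n, rdist g x y ≤ rdist g' x y)
    (hd2 : ∀ x ∈ bdM n, ∀ v, ⟪x, v⟫_ℝ = 0 → g' x v v ≤ g x v v)
    (ψ : E n → E n) (hψ : FixesBoundary ψ)
    (hh : ∀ x ∈ bdM n, ∀ v, ⟪x, v⟫_ℝ = 0 →
      pullback g' ψ x (J x v) (J x v) = pullback g' ψ x v v)
    (hδ : ∀ x ∈ M n, torsionDefect g (pullback g' ψ) J x = 0) :
    ∀ x ∈ M n, pullback g' ψ x = g x := by
  obtain ⟨C, hC⟩ := result n hn g J hg hk
  have h := hC g' ψ 0 0 0 hg' hψ le_rfl zero_le_one le_rfl (fun x hx y hy => by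
    rw [sub_zero, one_mul]
    exact hd x hx y hy) (Or.inr fun x hx v hv => by
    rw [add_zero, one_pow, one_mul]
    exact hd2 x hx v hv) (fun x hx v hv => by rw [hh x hx v hv, sub_self, abs_zero, zero_mul])
    (by rw [setIntegral_congr_fun (g := fun _ => (0 : ℝ)) measurableSet_closedBall hδ, integral_zero])
  rw [add_zero, add_zero, zero_mul, Real.sqrt_zero, mul_zero] at h
  exact Pool.Agent.W2helper20.KS.eq_of_dev hg.toIsMetric hg'
    ⟨hψ.smooth, fun x hx => hψ.maps x hx, hψ.fix⟩ h

/-- The case of almost Kähler metrics `(g, J)`, `(g', J')` and boundary fixing holomorphic maps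
`ψ : (M, J) → (M, J')`. -/
theorem kaehler (n : ℕ) (hn : 3 ≤ n) (g : E n → E n → E n → ℝ) (J : EndField n) (hg : IsSimple g)
    (hk : IsAlmostKaehler g J) :
    ∃ C : ℝ, ∀ (g' : E n → E n → E n → ℝ) (J' : EndField n) (ψ : E n → E n) (η : ℝ), IsMetric g' →
      IsAlmostKaehler g' J' → FixesBoundary ψ →
      (∀ x ∈ M n, ∀ v, fderiv ℝ ψ x (J x v) = J' (ψ x) (fderiv ℝ ψ x v)) → 0 ≤ η → η ≤ 1 →
      (∀ x ∈ bdM n, ∀ y ∈ bdM n, (1 - η) * rdist g x y ≤ rdist g' x y ∧
        rdist g' x y ≤ (1 + η) * rdist g x y) →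
      ∫ x in M n, deviation g (pullback g' ψ) x ≤ C * √η := by
  have hm := hg.toIsMetric
  have hb := balanced_of_kaehler hm hk
  obtain ⟨K, hK, H⟩ := Pool.Agent.W2helper20.KS.defectB hn hg hk.smooth (ah_clm hm hb) hb.coclosed
  refine ⟨K * √2, fun g' J' ψ η hg' hk' hψ hol h0 h1 hd => ?_⟩
  have hψ' : Pool.Agent.W2helper20.BC.IsFix ψ := ⟨hψ.smooth, fun x hx => hψ.maps x hx, hψ.fix⟩
  obtain ⟨e1, e2⟩ := Pool.Agent.W2helper20.KS.kdB_zero hm hk.smooth (ak_clm hm hk) hg' hk'.smooth
    (ak_clm hg' hk') hψ' hol
  have h := H g' ψ η 0 0 hg' hψ' h0 h1 (fun x hx y hy => (hd x hx y hy).1)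
    (Pool.Agent.W2helper20.KS.up_SM hm hg' h0 fun x hx y hy => (hd x hx y hy).2) le_rfl
    (fun x hx v hv => by rw [e1 x (sphere_subset_closedBall hx), sub_self, abs_zero, zero_mul]) e2
  rw [add_zero, add_zero] at h
  refine h.trans ?_
  rw [mul_assoc, ← Real.sqrt_mul zero_le_two]
  refine mul_le_mul_of_nonneg_left (Real.sqrt_le_sqrt ?_) hK
  nlinarith

/-- The special case of two metrics with the same (almost) complex structure. -/
theorem same_structure (n : ℕ) (hn : 3 ≤ n) (g : E n → E n → E n → ℝ) (J : EndField n)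
    (hg : IsSimple g) (hk : IsAlmostKaehler g J) :
    ∃ C : ℝ, ∀ (g' : E n → E n → E n → ℝ) (η : ℝ), IsMetric g' → IsAlmostKaehler g' J → 0 ≤ η → η ≤ 1 →
      (∀ x ∈ bdM n, ∀ y ∈ bdM n, (1 - η) * rdist g x y ≤ rdist g' x y ∧
        rdist g' x y ≤ (1 + η) * rdist g x y) →
      ∫ x in M n, deviation g g' x ≤ C * √η := by
  obtain ⟨C, hC⟩ := kaehler n hn g J hg hk
  refine ⟨C, fun g' η hg' hk' h0 h1 hd => ?_⟩
  have h := hC g' J id η hg' hk' ⟨contDiff_id, fun _ h => h, fun _ _ => rfl⟩ (fun _ _ _ => by simp)
    h0 h1 hd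
  have e : pullback g' id = g' := by
    funext x v w
    simp [pullback]
  rwa [e] at h

end Pool.Agent.Results.MP_07cd05_gt.KaehlerStability
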